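import Pool.Agent.Q67.LV.Defs
import Pool.Agent.Q95.CL.GoodL
import Pool.Agent.TH305.LG.FixL
import Pool.Agent.Q85.CL.En

/-!
Project LV (helper67, helper85), job LV-4: the uniform in time estimate of the variation of the
vorticity on the set where it is at most `M`.
-/

set_option autoImplicit false

open MeasureTheory Set Metric Filter Topology
open scoped ContDiff ENNReal
open H459R3.NS Pool.Agent.W268.NS Pool.Agent.Q67.VD

namespace Pool.Agent.Q225.LV

open Pool.Agent.Q85.CC Pool.Agent.Q85.CL Pool.Agent.Q67.LV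
open Pool.Agent.TH305.DR (SS Om)

lemma dom_contL {v : V → V} (hv : SM v) : Continuous (dom v) := by
  unfold dom
  exact continuous_finsetSum _ fun i _ => continuous_finsetSum _ fun j _ =>
    (pd_contL (sm_vortL hv i) j).abs

lemma dom_nn (v : V → V) (x : V) : 0 ≤ dom v x := by
  unfold dom
  exact Finset.sum_nonneg fun i _ => Finset.sum_nonneg fun j _ => abs_nonneg _

/-- Small radii. -/
lemma rad {C0 κ e R T₀ : ℝ} (hR : 0 < R) (hT : 0 < T₀) : ∃ R₁ : ℝ, 0 < R₁ ∧
    ∀ r : ℝ, 0 < r → r ≤ R₁ → r ≤ 1 ∧ C0 * κ * √r ≤ 1 ∧ C0 * (r + e * √r) ≤ R / 8 ∧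
      2 * r ≤ R / 8 ∧ r ^ 2 < T₀ := by
  have l1 : ∀ᶠ r : ℝ in 𝓝 0, r < 1 :=
    continuousAt_id.eventually_lt continuousAt_const (by norm_num)
  have l2 : ∀ᶠ r : ℝ in 𝓝 0, C0 * κ * √r < 1 := by
    have h : Continuous fun r : ℝ => C0 * κ * √r := by fun_prop
    exact h.continuousAt.eventually_lt continuousAt_const (by simp)
  have l3 : ∀ᶠ r : ℝ in 𝓝 0, C0 * (r + e * √r) < R / 8 := by
    have h : Continuous fun r : ℝ => C0 * (r + e * √r) := by fun_prop
    exact h.continuousAt.eventually_lt continuousAt_const (by simp [hR])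
  have l4 : ∀ᶠ r : ℝ in 𝓝 0, 2 * r < R / 8 := by
    have h : Continuous fun r : ℝ => 2 * r := by fun_prop
    exact h.continuousAt.eventually_lt continuousAt_const (by simp [hR])
  have l5 : ∀ᶠ r : ℝ in 𝓝 0, r ^ 2 < T₀ := by
    have h : Continuous fun r : ℝ => r ^ 2 := by fun_prop
    exact h.continuousAt.eventually_lt continuousAt_const (by simpa using hT)
  obtain ⟨ε, hε, h⟩ := Metric.eventually_nhds_iff.1 (l1.and (l2.and (l3.and (l4.and l5))))
  refine ⟨ε / 2, by positivity, fun r hr hrε => ?_⟩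
  have h1 : dist r 0 < ε := by
    rw [Real.dist_eq, sub_zero, abs_of_pos hr]
    linarith
  obtain ⟨a1, a2, a3, a4, a5⟩ := h h1
  exact ⟨a1.le, a2.le, a3.le, a4.le, a5⟩

/-- The total dissipation is finite. -/
lemma total_fin {T : ℝ} {O G : Set V} {u : ℝ → V → V}
    (hd : IntegrableOn (fun z : ℝ × V => W221.NS.gsq (u z.1) z.2) (Ioo 0 T ×ˢ O))
    (hGO : G ⊆ O) :
    ∫⁻ τ in Ioo 0 T, ∫⁻ y in G, ENNReal.ofReal (W221.NS.gsq (u τ) y) ≠ ⊤ := by
  have h1 : IntegrableOn (fun z : ℝ × V => W221.NS.gsq (u z.1) z.2) (Ioo 0 T ×ˢ G) :=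
    hd.mono_set (prod_mono le_rfl hGO)
  have h2 : AEMeasurable (fun z : ℝ × V => ENNReal.ofReal (W221.NS.gsq (u z.1) z.2))
      ((volume.restrict (Ioo 0 T)).prod (volume.restrict G)) := by
    rw [Measure.prod_restrict, ← Measure.volume_eq_prod]
    exact h1.aestronglyMeasurable.aemeasurable.ennreal_ofReal
  have h3 := lintegral_prod _ h2
  rw [← h3, Measure.prod_restrict, ← Measure.volume_eq_prod]
  have h4 : ∫⁻ z in Ioo 0 T ×ˢ G, ENNReal.ofReal (W221.NS.gsq (u z.1) z.2)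
      = ∫⁻ z in Ioo 0 T ×ˢ G, ‖W221.NS.gsq (u z.1) z.2‖ₑ := by
    refine lintegral_congr fun z => ?_
    rw [Real.enorm_eq_ofReal (gsq_nn _ _)]
  rw [h4]
  exact h1.2.ne

theorem err (hC : StmCube) (hS : StmSum) : StmErr := by
  intro T E O u p hT hu T₀ R M a hT₀ hT₀T hR hO hM
  have hE0 : 0 ≤ E := by
    refine le_trans (setIntegral_nonneg hu.openO.measurableSet fun x _ => ?_)
      (hu.en (T / 2) ⟨by linarith, by linarith⟩)
    exact nsq_nn _ _
  obtain ⟨ζ, κ, hκ, -, hζ1, hL⟩ := Pool.Agent.Q95.CL.cut_exists hu hE0 hR hO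
  obtain ⟨G, hGd⟩ : ∃ G, G = ball a (7 / 8 * R) := ⟨_, rfl⟩
  rw [← hGd] at hL
  have hG : IsOpen G := by rw [hGd]; exact isOpen_ball
  have hζG : ∀ x ∈ G, ζ x = 1 := fun x hx => hζ1 x (ball_subset_closedBall (by rwa [hGd] at hx))
  have hGO : G ⊆ O := by
    rw [hGd]
    exact (ball_subset_ball (by linarith)).trans (ball_subset_closedBall.trans hO)
  have hEs : 0 ≤ √E := Real.sqrt_nonneg E
  obtain ⟨C0, hC0, m, hm, K, hK, hfix⟩ := Pool.Agent.TH305.LG.fixL
  obtain ⟨Cc, hCc, hcube⟩ := hC (K 3) (hK 3)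
  obtain ⟨Cs, hCs, hsum⟩ := hS
  -- the dissipation of the truncated solution
  have hcutI : ∀ τ, ∫⁻ z in G, ENNReal.ofReal (W221.NS.gsq (fun x => ζ x • u τ x) z)
      = ∫⁻ z in G, ENNReal.ofReal (W221.NS.gsq (u τ) z) := fun τ =>
    setLIntegral_congr_fun hG.measurableSet fun z hz => by
      simp only [Pool.Agent.Q95.CL.gsq_cutG hG hζG τ hz]
  obtain ⟨A0, hA0⟩ : ∃ A0, A0 = ∫⁻ τ in Ioo 0 T, ∫⁻ y in G,
    ENNReal.ofReal (W221.NS.gsq (u τ) y) := ⟨_, rfl⟩
  have hA0f : A0 ≠ ⊤ := by rw [hA0]; exact total_fin hu.dis hGO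
  obtain ⟨A, hA⟩ : ∃ A, A = C0 * A0.toReal := ⟨_, rfl⟩
  have hAn : 0 ≤ A := by rw [hA]; exact mul_nonneg hC0.le ENNReal.toReal_nonneg
  obtain ⟨D, hD⟩ : ∃ D, D = Cc * M := ⟨_, rfl⟩
  have hDn : 0 ≤ D := by rw [hD]; exact mul_nonneg hCc.le (by linarith)
  obtain ⟨R₁, hR₁, hrad⟩ := rad (C0 := C0) (κ := κ) (e := √E) hR hT₀
  refine ⟨Cs * (1 + A) * D + 1, R₁, by positivity, hR₁, ?_⟩
  intro t ht x hx r hr
  have ht0 : t ∈ Ioo 0 T := ⟨hT₀.trans ht.1, ht.2⟩
  have hv : SM (u t) := sm_slice hu.toLEq ht0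
  have hr0 : 0 < r := hr.1
  have hrk : ∀ k : ℕ, 0 < r / 2 ^ k := fun k => by positivity
  have hrle : ∀ k : ℕ, r / 2 ^ k ≤ r := fun k => div_le_self hr0.le (one_le_pow₀ (by norm_num))
  have hrR : ∀ k : ℕ, r / 2 ^ k ≤ R₁ := fun k => (hrle k).trans hr.2
  obtain ⟨e1, -, -, e4, e5⟩ := hrad r hr0 hr.2
  have hxa : dist x a ≤ R / 2 := mem_closedBall.1 hx
  have hexB : ∀ k : ℕ, ∃ B : Set V, MeasurableSet B ∧
      volume B ≤ ENNReal.ofReal (C0 * (r / 2 ^ k) ^ 2) *
        ∫⁻ τ in Ioo (t - (r / 2 ^ k) ^ 2) t, ∫⁻ y in G, ENNReal.ofReal (W221.NS.gsq (u τ) y) ∧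
      ∀ x' ∈ closedBall x (2 * r), x' ∉ B → ∀ y ∈ ball x' ((r / 2 ^ k) / 16),
        y ∈ G ∧ (r / 2 ^ k) ^ 10 * TH305.DR.ST 3 (u t) y ≤ K 3 := by
    intro k
    obtain ⟨f1, f2, f3, f4, f5⟩ := hrad _ (hrk k) (hrR k)
    obtain ⟨B, hB1, hB2, hB3⟩ := hfix T κ (√E) G (fun t x => ζ x • u t x)
      (fun t x => ζ x * p t x) hκ hEs hL (r / 2 ^ k) t (hrk k) (f5.trans ht.1) ht.2 f2
    refine ⟨B, hB1, ?_, ?_⟩
    · refine hB2.trans (le_of_eq ?_)
      congr 1
      exact lintegral_congr fun τ => hcutI τ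
    · intro x' hx' hx'B y hy
      have hx'a : dist x' a ≤ R / 2 + R / 8 := by
        have h1 := dist_triangle x' x a
        have h2 := mem_closedBall.1 hx'
        linarith
      have hyG : y ∈ G := by
        rw [hGd, mem_ball]
        have h1 := dist_triangle y x' a
        have h2 := mem_ball.1 hy
        have h3 := hrle k
        linarith
      refine ⟨hyG, ?_⟩
      have h1 := (hB3 x' hx'B (by
        rw [hGd]
        apply ball_subset_ball'
        linarith)).1 y hy 3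
      have h2 : TH305.DR.ST 3 (fun x => ζ x • u t x) y = TH305.DR.ST 3 (u t) y := by
        unfold TH305.DR.ST
        exact Finset.sum_congr rfl fun q _ =>
          Pool.Agent.Q95.CL.om_cutG hG hζG u t hyG 3 q.1 q.2
      have h3 : (r / 2 ^ k) ^ (2 * 3 + 4) * TH305.DR.ST 3 (fun x => ζ x • u t x) y ≤ K 3 := h1
      rw [h2] at h3
      exact h3
  choose B hBm hBv hBg using hexB
  obtain ⟨g, hg⟩ : ∃ g : V → ℝ≥0∞, g = {y | om (u t) y ≤ M}.indicator
    (fun y => ENNReal.ofReal (dom (u t) y)) := ⟨_, rfl⟩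
  have hSm : MeasurableSet {y | om (u t) y ≤ M} :=
    measurableSet_le (om_contL hv).measurable measurable_const
  have hgm : Measurable g := by
    rw [hg]
    exact ((dom_contL hv).measurable.ennreal_ofReal).indicator hSm
  have hgI : ∀ S : Set V, ∫⁻ y in S, g y
      = ∫⁻ y in S ∩ {y | om (u t) y ≤ M}, ENNReal.ofReal (dom (u t) y) := by
    intro S
    rw [hg, setLIntegral_indicator hSm, inter_comm]
  have key : ∫⁻ y in closedBall x r, g y
      ≤ ENNReal.ofReal (Cs * (1 + A) * D * r ^ (1 / 3 : ℝ)) := by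
    refine hsum x r A D B g hr0 e1 hAn hDn hgm hBm ?_ ?_ ?_
    · intro k
      refine (hBv k).trans ?_
      have h1 : ∫⁻ τ in Ioo (t - (r / 2 ^ k) ^ 2) t, ∫⁻ y in G,
          ENNReal.ofReal (W221.NS.gsq (u τ) y) ≤ ENNReal.ofReal A0.toReal := by
        rw [ENNReal.ofReal_toReal hA0f, hA0]
        refine lintegral_mono_set (Ioo_subset_Ioo ?_ ht.2.le)
        have h2 : (r / 2 ^ k) ^ 2 ≤ r ^ 2 := pow_le_pow_left₀ (hrk k).le (hrle k) 2
        linarith [ht.1]
      calc _ ≤ ENNReal.ofReal (C0 * (r / 2 ^ k) ^ 2) * ENNReal.ofReal A0.toReal := by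
            gcongr
        _ = ENNReal.ofReal (A * (r / 2 ^ k) ^ 2) := by
            rw [← ENNReal.ofReal_mul (by positivity), hA]
            congr 1
            ring
    · intro k x' hx' hx'B z hz
      rw [hgI]
      have h1 := hcube (u t) z (r / 2 ^ k / 128) (r / 2 ^ k) M hv (hrk k) ((hrle k).trans e1)
        (by have := hrk k; positivity) (by linarith [hrk k]) hM ?_
      · rw [hD]
        exact h1
      · intro y hy
        refine (hBg k x' hx' hx'B y ?_).2
        rw [mem_ball]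
        have h2 := dist_triangle y z x'
        have h3 := mem_closedBall.1 hy
        rw [← dist_eq_norm] at hz
        linarith [hrk k]
    · intro y hy
      by_contra hcon
      push Not at hcon
      have hsub : ∀ k, ball y (r / 2 ^ k / 32) ⊆ B k := by
        intro k z hz
        by_contra hzB
        have h1 := hcon k z (by
          rw [mem_closedBall]
          have h2 := dist_triangle z y x
          have h3 := mem_ball.1 hz
          have h4 := mem_closedBall.1 hy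
          linarith [hrle k]) hzB
        rw [← dist_eq_norm] at h1
        linarith [mem_ball.1 hz]
      -- the dissipation near the time `t`
      have hct := (W335.MD.t_CT Pool.Agent.W333.MD.t_PCONT) 0 T u hu.smooth_u
      have hB2c : ContinuousOn (fun τ => W221.NS.B2 a (7 / 8 * R) (u τ)) (Ioo 0 T) :=
        (hct.1 a (7 / 8 * R)).2
      have hIcc : Icc (t - r ^ 2) t ⊆ Ioo 0 T := fun τ hτ =>
        ⟨by linarith [hτ.1, ht.1], hτ.2.trans_lt ht.2⟩
      obtain ⟨Mb, hMb⟩ := (isCompact_Icc (a := t - r ^ 2) (b := t)).bddAbove_image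
        (hB2c.mono hIcc)
      have hMb' : ∀ τ ∈ Icc (t - r ^ 2) t, W221.NS.B2 a (7 / 8 * R) (u τ) ≤ |Mb| := fun τ hτ =>
        (hMb (mem_image_of_mem _ hτ)).trans (le_abs_self _)
      have hlin : ∀ τ ∈ Icc (t - r ^ 2) t, ∫⁻ y in G, ENNReal.ofReal (W221.NS.gsq (u τ) y)
          ≤ ENNReal.ofReal |Mb| := by
        intro τ hτ
        have hvτ : SM (u τ) := sm_slice hu.toLEq (hIcc hτ)
        have h1 : IntegrableOn (W221.NS.gsq (u τ)) G := by
          rw [hGd]
          exact ((gsq_contL hvτ).continuousOn.integrableOn_compact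
            (isCompact_closedBall a (7 / 8 * R))).mono_set ball_subset_closedBall
        rw [← ofReal_integral_eq_lintegral_ofReal h1 (Eventually.of_forall fun y => gsq_nn _ _)]
        apply ENNReal.ofReal_le_ofReal
        have h2 := hMb' τ hτ
        unfold W221.NS.B2 at h2
        rw [hGd]
        exact h2
      -- the volumes
      have hvol : ∀ k : ℕ, (r / 2 ^ k / 16) ^ 3 ≤ C0 * (r / 2 ^ k) ^ 2 * (|Mb| * (r / 2 ^ k) ^ 2) := by
        intro k
        obtain ⟨s, hs⟩ : ∃ s, s = r / 2 ^ k := ⟨_, rfl⟩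
        have hs0 : 0 < s := by rw [hs]; exact hrk k
        have hsr : s ≤ r := by rw [hs]; exact hrle k
        have hs2 : s ^ 2 ≤ r ^ 2 := pow_le_pow_left₀ hs0.le hsr 2
        have h1 := (measure_mono (μ := volume) (hsub k)).trans (hBv k)
        rw [← hs] at h1 ⊢
        have h2 : ∫⁻ τ in Ioo (t - s ^ 2) t, ∫⁻ y in G, ENNReal.ofReal (W221.NS.gsq (u τ) y)
            ≤ ENNReal.ofReal (|Mb| * s ^ 2) := by
          calc ∫⁻ τ in Ioo (t - s ^ 2) t, ∫⁻ y in G, ENNReal.ofReal (W221.NS.gsq (u τ) y)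
              ≤ ∫⁻ τ in Ioo (t - s ^ 2) t, ENNReal.ofReal |Mb| :=
                setLIntegral_mono measurable_const fun τ hτ =>
                  hlin τ ⟨by linarith [hτ.1], hτ.2.le⟩
            _ = ENNReal.ofReal (|Mb| * s ^ 2) := by
                rw [setLIntegral_const, Real.volume_Ioo, ← ENNReal.ofReal_mul (abs_nonneg _)]
                congr 2
                ring
        have h3 : volume (ball y (s / 32)) = ENNReal.ofReal ((s / 16) ^ 3) := by
          rw [Real.volume_pi_ball y (by positivity : 0 < s / 32)]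
          congr 1
          simp only [Fintype.card_fin]
          ring
        rw [h3] at h1
        have h4 : ENNReal.ofReal ((s / 16) ^ 3)
            ≤ ENNReal.ofReal (C0 * s ^ 2 * (|Mb| * s ^ 2)) := by
          refine h1.trans ?_
          rw [ENNReal.ofReal_mul (by positivity : 0 ≤ C0 * s ^ 2)]
          gcongr
        exact (ENNReal.ofReal_le_ofReal_iff (by positivity)).1 h4
      obtain ⟨k, hk⟩ := pow_unbounded_of_one_lt (4096 * (C0 * |Mb|) * r)
        (show (1 : ℝ) < 2 by norm_num)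
      have h5 := hvol k
      obtain ⟨s, hs⟩ : ∃ s, s = r / 2 ^ k := ⟨_, rfl⟩
      have hs0 : 0 < s := by rw [hs]; exact hrk k
      rw [← hs] at h5
      have h6 : 4096 * (C0 * |Mb|) * s < 1 := by
        rw [hs, mul_div_assoc', div_lt_one (by positivity)]
        exact hk
      have h7 : s ^ 3 * (1 - 4096 * (C0 * |Mb|) * s) ≤ 0 := by
        have : (s / 16) ^ 3 = s ^ 3 / 4096 := by ring
        rw [this] at h5
        have e : s ^ 3 * (1 - 4096 * (C0 * |Mb|) * s)
          = 4096 * (s ^ 3 / 4096 - C0 * s ^ 2 * (|Mb| * s ^ 2)) := by ring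
        rw [e]
        linarith
      have h8 : 0 < s ^ 3 * (1 - 4096 * (C0 * |Mb|) * s) := mul_pos (by positivity) (by linarith)
      linarith
  rw [hgI] at key
  have hrp : 0 ≤ r ^ (1 / 3 : ℝ) := Real.rpow_nonneg hr0.le _
  rw [integral_eq_lintegral_of_nonneg_ae (Eventually.of_forall fun y => dom_nn _ y)
    (dom_contL hv).aestronglyMeasurable]
  refine (ENNReal.toReal_le_of_le_ofReal (by positivity) key).trans ?_
  gcongr
  linarith

end Pool.Agent.Q225.LV
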