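import Mathlib

/-! # LV-1, Mathlib part -/

set_option autoImplicit false
open MeasureTheory Set
open scoped ContDiff

namespace Pool.Agent.Q225.LV

theorem taylor2 (g : ℝ → ℝ) (hg : ContDiff ℝ ∞ g) (a b B : ℝ) (hB : 0 ≤ B)
    (h : ∀ s ∈ Icc a b, |deriv (deriv g) s| ≤ B) (s : ℝ) (hs : s ∈ Icc a b) :
    |deriv g s - deriv g a| ≤ B * (b - a) ∧
    |g s - (g a + deriv g a * (s - a))| ≤ B * (b - a) ^ 2 := by
  have hab : a ≤ b := hs.1.trans hs.2
  have hg0 : Differentiable ℝ g := hg.differentiable (by simp)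
  have hg1 : ContDiff ℝ ∞ (deriv g) := by
    have := (contDiff_infty_iff_deriv (𝕜 := ℝ) (f := g)).1 hg
    exact this.2
  have hg1d : Differentiable ℝ (deriv g) := hg1.differentiable (by simp)
  have ha : a ∈ Icc a b := ⟨le_rfl, hab⟩
  have h1 : ∀ y ∈ Icc a b, |deriv g y - deriv g a| ≤ B * (b - a) := by
    intro y hy
    have h2 := Convex.norm_image_sub_le_of_norm_deriv_le (f := deriv g) (C := B)
      (fun x _ => hg1d x) (fun x hx => by rw [Real.norm_eq_abs]; exact h x hx)
      (convex_Icc a b) ha hy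
    rw [Real.norm_eq_abs, Real.norm_eq_abs, abs_of_nonneg (show (0 : ℝ) ≤ y - a by linarith [hy.1])] at h2
    refine h2.trans (mul_le_mul_of_nonneg_left (by linarith [hy.2]) hB)
  refine ⟨h1 s hs, ?_⟩
  have h3 : ∀ x, HasDerivAt (fun y => g y - deriv g a * (y - a)) (deriv g x - deriv g a) x := by
    intro x
    have h4 := (hg0 x).hasDerivAt.fun_sub (((hasDerivAt_id x).sub_const a).const_mul (deriv g a))
    simpa using h4
  have h5 := Convex.norm_image_sub_le_of_norm_deriv_le (f := fun y => g y - deriv g a * (y - a))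
    (C := B * (b - a)) (fun x _ => (h3 x).differentiableAt)
    (fun x hx => by rw [(h3 x).deriv, Real.norm_eq_abs]; exact h1 x hx)
    (convex_Icc a b) ha hs
  rw [Real.norm_eq_abs, Real.norm_eq_abs, abs_of_nonneg (by linarith [hs.1] : 0 ≤ s - a)] at h5
  have h6 : g s - deriv g a * (s - a) - (g a - deriv g a * (a - a)) =
      g s - (g a + deriv g a * (s - a)) := by ring
  rw [h6] at h5
  refine h5.trans ?_
  have h7 : s - a ≤ b - a := by linarith [hs.2]
  have h8 : 0 ≤ B * (b - a) := mul_nonneg hB (by linarith)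
  calc B * (b - a) * (s - a) ≤ B * (b - a) * (b - a) := mul_le_mul_of_nonneg_left h7 h8
    _ = B * (b - a) ^ 2 := by ring

theorem half (f : ℝ → ℝ) (hf : ContDiff ℝ ∞ f) (a b M ε p q : ℝ) (hε : 0 ≤ ε) (hM : 0 ≤ M)
    (h : ∀ s ∈ Icc a b, |deriv f s - (p + q * s)| ≤ ε / 2) :
    ∫ s in (Icc a b ∩ {s | ε ≤ p + q * s}) ∩ {s | |f s| ≤ M}, deriv f s ≤ 2 * M := by
  set K := (Icc a b ∩ {s | ε ≤ p + q * s}) ∩ {s | |f s| ≤ M} with hK
  have hc : IsCompact K := by
    refine IsCompact.inter_right (IsCompact.inter_right isCompact_Icc ?_) ?_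
    · exact isClosed_le continuous_const (by fun_prop)
    · exact isClosed_le (hf.continuous.abs) continuous_const
  rcases K.eq_empty_or_nonempty with h0 | h0
  · rw [h0]
    simp
    exact hM
  · obtain ⟨c, hcK, hcl⟩ := hc.exists_isLeast h0
    obtain ⟨d, hdK, hdu⟩ := hc.exists_isGreatest h0
    have hcd : c ≤ d := hcl hdK
    have hsub : K ⊆ Icc c d := fun s hs => ⟨hcl hs, hdu hs⟩
    have hpos : ∀ s ∈ Icc c d, 0 ≤ deriv f s := by
      intro s hs
      have h1 : s ∈ Icc a b := ⟨hcK.1.1.1.trans hs.1, hs.2.trans hdK.1.1.2⟩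
      have h2 := (abs_le.1 (h s h1)).1
      have h3 : ε ≤ p + q * c := hcK.1.2
      have h4 : ε ≤ p + q * d := hdK.1.2
      have h5 : ε ≤ p + q * s := by
        rcases le_total 0 q with hq | hq
        · have := mul_le_mul_of_nonneg_left hs.1 hq
          linarith
        · have := mul_le_mul_of_nonpos_left hs.2 hq
          linarith
      linarith
    have hf0 : Differentiable ℝ f := hf.differentiable (by simp)
    have hfc : Continuous (deriv f) := ((contDiff_infty_iff_deriv (𝕜 := ℝ) (f := f)).1 hf).2.continuous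
    have h1 : ∫ s in K, deriv f s ≤ ∫ s in Icc c d, deriv f s := by
      refine setIntegral_mono_set hfc.continuousOn.integrableOn_Icc ?_ ?_
      · rw [Filter.EventuallyLE, ae_restrict_iff' measurableSet_Icc]
        exact Filter.Eventually.of_forall hpos
      · exact Filter.Eventually.of_forall hsub
    refine h1.trans ?_
    rw [integral_Icc_eq_integral_Ioc, ← intervalIntegral.integral_of_le hcd,
      intervalIntegral.integral_deriv_eq_sub (fun x _ => hf0 x) (hfc.intervalIntegrable _ _)]
    have h2 := abs_le.1 (show |f c| ≤ M from hcK.2)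
    have h3 := abs_le.1 (show |f d| ≤ M from hdK.2)
    linarith

/-- one short interval -/
theorem short (f : ℝ → ℝ) (hf : ContDiff ℝ ∞ f) (a b B M : ℝ) (hab : a ≤ b) (hB : 0 ≤ B)
    (hM : 0 ≤ M) (h : ∀ s ∈ Icc a b, |iteratedDeriv 3 f s| ≤ B) (hl : B * (b - a) ^ 3 ≤ M) :
    ∫ s in a..b, {s | |f s| ≤ M}.indicator (fun s => |deriv f s|) s ≤ 7 * M := by
  have hf1 : ContDiff ℝ ∞ (deriv f) := ((contDiff_infty_iff_deriv (𝕜 := ℝ) (f := f)).1 hf).2
  have hfc : Continuous (deriv f) := hf1.continuous
  have h3 : ∀ s, iteratedDeriv 3 f s = deriv (deriv (deriv f)) s := by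
    intro s
    rw [iteratedDeriv_succ, iteratedDeriv_succ, iteratedDeriv_succ, iteratedDeriv_zero]
  set g := deriv f with hg
  set q := deriv g a with hq
  set p := g a - q * a with hp
  set ε := 2 * (B * (b - a) ^ 2) with hε
  have hε0 : 0 ≤ ε := by positivity
  have hT : ∀ s ∈ Icc a b, |g s - (p + q * s)| ≤ ε / 2 := by
    intro s hs
    have h4 := (taylor2 g hf1 a b B hB (fun s hs => by rw [← h3]; exact h s hs) s hs).2
    have h5 : g s - (p + q * s) = g s - (g a + deriv g a * (s - a)) := by
      rw [hp, hq]; ring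
    rw [h5, hε]
    linarith
  set S : Set ℝ := {s | |f s| ≤ M} with hS
  have hSm : MeasurableSet S := (isClosed_le (hf.continuous.abs) continuous_const).measurableSet
  set K1 : Set ℝ := (Icc a b ∩ {s | ε ≤ p + q * s}) ∩ S with hK1
  set K2 : Set ℝ := (Icc a b ∩ {s | ε ≤ -p + -q * s}) ∩ S with hK2
  have hK1m : MeasurableSet K1 := by
    refine (measurableSet_Icc.inter ?_).inter hSm
    exact (isClosed_le continuous_const (by fun_prop)).measurableSet
  have hK2m : MeasurableSet K2 := by
    refine (measurableSet_Icc.inter ?_).inter hSm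
    exact (isClosed_le continuous_const (by fun_prop)).measurableSet
  have e1 : ∫ s in K1, g s ≤ 2 * M := half f hf a b M ε p q hε0 hM hT
  have e2 : ∫ s in K2, -g s ≤ 2 * M := by
    have h6 := half (fun s => -f s) hf.neg a b M ε (-p) (-q) hε0 hM (fun s hs => by
      have h7 : deriv (fun s => -f s) s = -g s := by
        rw [deriv.fun_neg]
      rw [h7, ← abs_neg]
      have h8 : -(-g s - (-p + -q * s)) = g s - (p + q * s) := by ring
      rw [h8]
      exact hT s hs)
    have h7 : (fun s => deriv (fun s => -f s) s) = fun s => -g s := by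
      funext s
      rw [deriv.fun_neg]
    have h8 : {s | |(fun s => -f s) s| ≤ M} = S := by
      ext s
      simp [hS]
    rw [h8] at h6
    calc ∫ s in K2, -g s = ∫ s in K2, deriv (fun s => -f s) s := by rw [← h7]
      _ ≤ 2 * M := h6
  have hpt : ∀ s ∈ Icc a b, S.indicator (fun s => |g s|) s ≤
      3 / 2 * ε + (K1.indicator g s + K2.indicator (fun s => -g s) s) := by
    intro s hs
    have h7 := abs_le.1 (hT s hs)
    have k1 : 0 ≤ K1.indicator g s := by
      by_cases hk : s ∈ K1
      · rw [indicator_of_mem hk]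
        have : ε ≤ p + q * s := hk.1.2
        linarith [h7.1]
      · rw [indicator_of_notMem hk]
    have k2 : 0 ≤ K2.indicator (fun s => -g s) s := by
      by_cases hk : s ∈ K2
      · rw [indicator_of_mem hk]
        have : ε ≤ -p + -q * s := hk.1.2
        linarith [h7.2]
      · rw [indicator_of_notMem hk]
    by_cases hs2 : s ∈ S
    · rw [indicator_of_mem hs2]
      by_cases c1 : ε ≤ p + q * s
      · have hk : s ∈ K1 := ⟨⟨hs, c1⟩, hs2⟩
        rw [indicator_of_mem hk] at k1 ⊢
        rw [abs_of_nonneg k1]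
        linarith
      · by_cases c2 : ε ≤ -p + -q * s
        · have hk : s ∈ K2 := ⟨⟨hs, c2⟩, hs2⟩
          rw [indicator_of_mem hk] at k2 ⊢
          rw [abs_of_nonpos (by linarith)]
          linarith
        · push Not at c1 c2
          have : |g s| ≤ 3 / 2 * ε := by
            rw [abs_le]
            constructor <;> linarith
          linarith
    · rw [indicator_of_notMem hs2]
      linarith
  have i0 : IntervalIntegrable (S.indicator (fun s => |g s|)) volume a b := by
    rw [intervalIntegrable_iff]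
    exact (((hfc.abs).continuousOn.integrableOn_Icc (a := a) (b := b)).mono_set
      (by rw [uIoc_of_le hab]; exact Ioc_subset_Icc_self)).indicator hSm
  have i1 : IntervalIntegrable (K1.indicator g) volume a b := by
    rw [intervalIntegrable_iff]
    exact ((hfc.continuousOn.integrableOn_Icc (a := a) (b := b)).mono_set
      (by rw [uIoc_of_le hab]; exact Ioc_subset_Icc_self)).indicator hK1m
  have i2 : IntervalIntegrable (K2.indicator (fun s => -g s)) volume a b := by
    rw [intervalIntegrable_iff]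
    exact (((hfc.neg).continuousOn.integrableOn_Icc (a := a) (b := b)).mono_set
      (by rw [uIoc_of_le hab]; exact Ioc_subset_Icc_self)).indicator hK2m
  have j1 : ∫ s in a..b, K1.indicator g s = ∫ s in K1, g s := by
    rw [intervalIntegral.integral_of_le hab, ← integral_Icc_eq_integral_Ioc,
      setIntegral_indicator hK1m]
    congr 2
    rw [inter_eq_right]
    exact fun s hs => hs.1.1
  have j2 : ∫ s in a..b, K2.indicator (fun s => -g s) s = ∫ s in K2, -g s := by
    rw [intervalIntegral.integral_of_le hab, ← integral_Icc_eq_integral_Ioc,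
      setIntegral_indicator hK2m]
    congr 2
    rw [inter_eq_right]
    exact fun s hs => hs.1.1
  have j3 := intervalIntegral.integral_mono_on hab i0
    ((intervalIntegrable_const (c := 3 / 2 * ε)).add (i1.add i2)) hpt
  have j4 : ∫ s in a..b, (3 / 2 * ε + (K1.indicator g s + K2.indicator (fun s => -g s) s)) =
      (b - a) * (3 / 2 * ε) + ((∫ s in K1, g s) + (∫ s in K2, -g s)) := by
    rw [intervalIntegral.integral_add intervalIntegrable_const (i1.add i2),
      intervalIntegral.integral_add i1 i2, j1, j2, intervalIntegral.integral_const, smul_eq_mul]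
  have j5 : (b - a) * (3 / 2 * ε) ≤ 3 * M := by
    have : (b - a) * (3 / 2 * ε) = 3 * (B * (b - a) ^ 3) := by rw [hε]; ring
    linarith
  have j6 : ∫ s in a..b, (3 / 2 * ε + (K1.indicator g s + K2.indicator (fun s => -g s) s)) ≤
      7 * M := by
    rw [j4]
    linarith
  exact j3.trans j6

theorem oneD : ∃ C : ℝ, 0 < C ∧ ∀ (f : ℝ → ℝ) (B M δ : ℝ), ContDiff ℝ ∞ f → 0 < B → 0 < M →
  0 < δ → (∀ s ∈ Icc (-δ) δ, |iteratedDeriv 3 f s| ≤ B) →
    ∫ s in Icc (-δ) δ ∩ {s | |f s| ≤ M}, |deriv f s| ≤ C * (M + δ * (B * M ^ 2) ^ (1 / 3 : ℝ)) := by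
  refine ⟨14, by norm_num, ?_⟩
  intro f B M δ hf hB hM hδ h
  have hfc : Continuous (deriv f) := ((contDiff_infty_iff_deriv (𝕜 := ℝ) (f := f)).1 hf).2.continuous
  set S : Set ℝ := {s | |f s| ≤ M} with hS
  have hSm : MeasurableSet S := (isClosed_le (hf.continuous.abs) continuous_const).measurableSet
  set l : ℝ := (M / B) ^ (1 / 3 : ℝ) with hl
  have hMB : 0 < M / B := div_pos hM hB
  have hl0 : 0 < l := Real.rpow_pos_of_pos hMB _
  have hl3 : l ^ 3 = M / B := by
    rw [hl, ← Real.rpow_natCast, ← Real.rpow_mul hMB.le]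
    norm_num
  set N : ℕ := ⌈2 * δ / l⌉₊ with hN
  have hx0 : 0 < 2 * δ / l := by positivity
  have hN0 : 0 < N := Nat.ceil_pos.2 hx0
  have hN0' : (0 : ℝ) < N := by exact_mod_cast hN0
  have hNle : (N : ℝ) ≤ 2 * δ / l + 1 := (Nat.ceil_lt_add_one hx0.le).le
  have hNge : 2 * δ / l ≤ N := Nat.le_ceil _
  set e : ℝ := 2 * δ / N with he
  have he0 : 0 < e := by positivity
  have hel : e ≤ l := by
    rw [he, div_le_iff₀ hN0']
    rw [div_le_iff₀ hl0] at hNge
    linarith
  have hBe : B * e ^ 3 ≤ M := by
    have h1 : e ^ 3 ≤ l ^ 3 := pow_le_pow_left₀ he0.le hel 3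
    rw [hl3] at h1
    calc B * e ^ 3 ≤ B * (M / B) := mul_le_mul_of_nonneg_left h1 hB.le
      _ = M := by field_simp
  let a : ℕ → ℝ := fun i => -δ + i * e
  have ha0 : a 0 = -δ := by simp [a]
  have haN : a N = δ := by
    simp only [a]
    rw [he]
    field_simp
    ring
  have hint : ∀ k < N, IntervalIntegrable (S.indicator (fun s => |deriv f s|)) volume (a k) (a (k + 1)) := by
    intro k _
    rw [intervalIntegrable_iff]
    have hak : a k ≤ a (k + 1) := by
      simp only [a]
      push_cast
      linarith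
    exact (((hfc.abs).continuousOn.integrableOn_Icc (a := a k) (b := a (k + 1))).mono_set
      (by rw [uIoc_of_le hak]; exact Ioc_subset_Icc_self)).indicator hSm
  have hsum := intervalIntegral.sum_integral_adjacent_intervals hint
  have h1 : ∫ s in Icc (-δ) δ ∩ S, |deriv f s| =
      ∫ s in (-δ)..δ, S.indicator (fun s => |deriv f s|) s := by
    rw [intervalIntegral.integral_of_le (by linarith), ← integral_Icc_eq_integral_Ioc,
      setIntegral_indicator hSm]
  have h1' : ∫ s in (-δ)..δ, S.indicator (fun s => |deriv f s|) s =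
      ∫ s in (a 0)..(a N), S.indicator (fun s => |deriv f s|) s := by rw [ha0, haN]
  rw [h1, h1', ← hsum]
  have h2 : ∀ k ∈ Finset.range N, ∫ s in (a k)..(a (k + 1)), S.indicator (fun s => |deriv f s|) s ≤
      7 * M := by
    intro k hk
    rw [Finset.mem_range] at hk
    have hk' : (k : ℝ) + 1 ≤ N := by exact_mod_cast hk
    have hd : a (k + 1) - a k = e := by
      simp only [a]
      push_cast
      ring
    refine short f hf (a k) (a (k + 1)) B M (by linarith) hB.le hM.le ?_ ?_
    · intro s hs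
      apply h s
      have e1 : (N : ℝ) * e = 2 * δ := by rw [he]; field_simp
      constructor
      · have : 0 ≤ (k : ℝ) * e := by positivity
        have h3 := hs.1
        simp only [a] at h3
        linarith
      · have h3 := hs.2
        simp only [a] at h3
        push_cast at h3
        have h4 : ((k : ℝ) + 1) * e ≤ N * e := mul_le_mul_of_nonneg_right hk' he0.le
        linarith
    · rw [hd]
      exact hBe
  refine (Finset.sum_le_card_nsmul _ _ _ h2).trans ?_
  rw [Finset.card_range, nsmul_eq_mul]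
  have h3 : M * (1 / l) = (B * M ^ 2) ^ (1 / 3 : ℝ) := by
    have h4 : (M : ℝ) = (M ^ 3) ^ (1 / 3 : ℝ) := by
      rw [← Real.rpow_natCast, ← Real.rpow_mul hM.le]
      norm_num
    have h5 : 1 / l = (B / M) ^ (1 / 3 : ℝ) := by
      rw [hl, one_div, ← Real.inv_rpow hMB.le, inv_div]
    rw [h5]
    nth_rewrite 1 [h4]
    rw [← Real.mul_rpow (by positivity) (by positivity)]
    congr 1
    field_simp
  calc (N : ℝ) * (7 * M) ≤ (2 * δ / l + 1) * (7 * M) :=
        mul_le_mul_of_nonneg_right hNle (by positivity)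
    _ = 7 * M + 14 * (δ * (M * (1 / l))) := by ring
    _ ≤ 14 * (M + δ * (B * M ^ 2) ^ (1 / 3 : ℝ)) := by
        rw [h3]
        linarith

end Pool.Agent.Q225.LV
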