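import Pool.Agent.Q67.LV.Defs
import Pool.Agent.Q225.LV.OneDa

/-! # LV-1 -/

set_option autoImplicit false

namespace Pool.Agent.Q225.LV

theorem stmOneD : Pool.Agent.Q67.LV.StmOneD := oneD

end Pool.Agent.Q225.LV
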